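import Pool.Agent.Work.MP_6dc561_nf.Fin3
import Pool.Agent.Work.MP_6dc561_nf.B_GEN
import Pool.Agent.Work.MP_6dc561_nf.B_COL
import Pool.Agent.Work.MP_6dc561_nf.B_SUMV
import Pool.Agent.Work.MP_6dc561_nf.B_NPR
import Pool.Agent.Work.MP_6dc561_nf.B_DEN
import Pool.Agent.Work.MP_6dc561_nf.B_CORE
import Pool.Agent.Work.MP_6dc561_nf.B_COSG
import Pool.Agent.Work.MP_6dc561_nf.B_COSF
import Pool.Agent.Work.MP_6dc561_nf.B_WB
import Pool.Agent.Work.MP_6dc561_nf.B_FLDX
import Pool.Agent.Work.MP_6dc561_nf.B_ORT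
import Pool.Agent.Work.MP_6dc561_nf.B_SPLX

set_option autoImplicit false

open NumberField IsDedekindDomain Ideal Finset Module

namespace Pool.Agent.Results.MP_6dc561_nt.AbelianFields

open Pool.NF
open Pool.SV (primesUpTo)
open Pool.Agent.Work.MP_6dc561_nt.PS (LipR)
open Pool.Agent.Work.MP_6dc561_nt.AB (InCoset)

/-- Local data of a system `Φ` of equations over the integers of a number field `F` (for instance of an
abelian surface) against Dirichlet characters, in residue classes, and over the abelian extensions of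
`F`. `T` is any function of the prime `v` of `F`, the norm and the numbers of solutions, with values in the
plane; `s(w)` is its value at a prime `w` of an extension of `F`. Outside a set `E` of at most `C Q^δ`
primitive characters of modulus at most `Q`, which serves all `x` with
`(log Q)^(1/κ) ≤ x ≤ exp(Q^κ)` and all test functions `G`, with error `C · min(x, Q)^(-κ)`:
(1) the average of `G(s(v)) χ(N v)` over the primes `v ∉ S` of `F` of norm at most `x` is zero for all
primitive `χ ≠ 1` of modulus at most `Q` not in `E`;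
(2) the average of `G(s(v))` over those `v` with norm in a coset of a subgroup `H` of `(ℤ/q)ˣ`, `q ≤ Q`, is
the average over all those `v` if no character in `E` induces a character trivial on `H`; the error is
multiplied by the index of `H`;
(3) for every extension `K` of `F` contained in a cyclotomic extension `M = F(ζ_q)`, `q ≤ Q`, such that every
character of `Gal(K/F)` other than `1` is given by a Dirichlet character modulo `q` that is not induced by a
character in `E`: the average over those `v` with a given Frobenius `τ` in `Gal(K/F)`, and the average over the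
primes of `K` of norm at most `x` not above `S`, are the average over all those `v`; the error is multiplied
by `[K : F]`. -/
theorem result {F : Type} [Field F] [NumberField F] {σ : Type} (Φ : Set (MvPolynomial σ (𝓞 F)))
    (T : HeightOneSpectrum (𝓞 F) → ℕ → (ℕ → ℕ) → ℝ × ℝ)
    (S : Set (HeightOneSpectrum (𝓞 F))) (hS : S.Finite) (R δ κ : ℝ) (hκ : 0 < κ)
    (hκδ : 184 * κ ≤ δ) (hκ120 : 120 * κ ≤ 1) :
    ∃ C : ℝ, ∀ Q : ℕ, 2 ≤ Q → ∃ E : Finset (Σ r : ℕ, DirichletCharacter ℂ r),
      (E.card : ℝ) ≤ C * (Q : ℝ) ^ δ ∧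
      (∀ y ∈ E, y.1 ≤ Q ∧ y.2.IsPrimitive ∧ y.2 ≠ 1) ∧
      ∀ x : ℕ, (Real.log Q) ^ (1 / κ) ≤ x → (x : ℝ) ≤ Real.exp ((Q : ℝ) ^ κ) →
      ∀ G : ℝ → ℝ → ℝ, LipR R G →
        (∀ (r : ℕ) (χ : DirichletCharacter ℂ r), 1 ≤ r → r ≤ Q → χ.IsPrimitive → χ ≠ 1 →
          (⟨r, χ⟩ : Σ r : ℕ, DirichletCharacter ℂ r) ∉ E →
          ‖(∑ᶠ v ∈ primesUpTo S F x, (G (datum Φ T v).1 (datum Φ T v).2 : ℂ) *
            χ (absNorm v.asIdeal : ZMod r)) / ((primesUpTo S F x).ncard : ℂ)‖ ≤
            C * (min (x : ℝ) Q) ^ (-κ)) ∧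
        (∀ (q : ℕ) (H : Subgroup (ZMod q)ˣ) (a : (ZMod q)ˣ), 1 ≤ q → q ≤ Q →
          (∀ χ : DirichletCharacter ℂ q, (∀ u ∈ H, χ (u : ZMod q) = 1) →
            (⟨χ.conductor, χ.primitiveCharacter⟩ : Σ r : ℕ, DirichletCharacter ℂ r) ∉ E) →
          |meanOn Φ T G F {v | v ∈ primesUpTo S F x ∧ InCoset H a (absNorm v.asIdeal)} -
            meanOn Φ T G F (primesUpTo S F x)| ≤ C * H.index * (min (x : ℝ) Q) ^ (-κ)) ∧
        (∀ (K M : Type) [Field K] [NumberField K] [Field M] [NumberField M] [Algebra F K] [Algebra K M]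
          [Algebra F M] [IsScalarTower F K M] (q : ℕ) [IsCyclotomicExtension {q} F M], 1 ≤ q → q ≤ Q →
          (∀ θ : Gal(K/F) →* ℂˣ, θ ≠ 1 → ∃ χ : DirichletCharacter ℂ q, Induces F K M q χ θ ∧
            (⟨χ.conductor, χ.primitiveCharacter⟩ : Σ r : ℕ, DirichletCharacter ℂ r) ∉ E) →
          (∀ τ : Gal(K/F), |meanOn Φ T G F {v | v ∈ primesUpTo S F x ∧ FrobIs K M q τ v} -
            meanOn Φ T G F (primesUpTo S F x)| ≤ C * finrank F K * (min (x : ℝ) Q) ^ (-κ)) ∧
          |meanOn Φ T G K (primesUpTo S K x) - meanOn Φ T G F (primesUpTo S F x)| ≤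
            C * finrank F K * (min (x : ℝ) Q) ^ (-κ)) :=
  main3 (p_CORE p_GEN p_COL (p_SUMV p_NPR p_COL) p_DEN) (p_COSF p_COSG p_WB) (p_FLDX p_NPR p_WB)
    (p_SPLX p_ORT) p_NPR p_WB p_ORT Φ T S hS R δ κ hκ hκδ hκ120

end Pool.Agent.Results.MP_6dc561_nt.AbelianFields
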