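import Pool.Agent.Work.MP_6dc561_sv.Fin

/-!
# Sato-Tate averages over the subfields of an algebraic closure, for every abelian surface

`F` is a number field, `Φ` is any system of polynomial equations over its ring of integers (for example
homogeneous equations of an abelian surface `A / F` in a projective space). For a prime `w` of a finite
extension `K` of `F`, `N_m(w)` is the number of solutions over the extension of degree `m` of the residue
field (`1 + (q_w^m - 1) #A(F_(q_w^m))` for almost all `w`, in the example; these numbers and `q_w` determine the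
characteristic polynomial of Frobenius on `H¹`). `A_x(K)` is the average of a bounded test function `G` of
`w|F`, `q_w` and `(N_m(w))_m` over the primes `w` of `K` of norm `q_w ≤ x` outside a finite set.
-/

set_option autoImplicit false

open NumberField IsDedekindDomain Filter Topology Module Pool.SV

namespace Pool.Agent.Results.MP_6dc561_nt.MinimalFields

/-- Limits are along a filter `l` finer than `x → ∞`; `a(K)` is the limit of `A_x(K)`.
(1) Let `M₀ / F` be finite, let `G_t` be test functions and let `L_t(K ∩ M₀)` be any real numbers. Call `K` good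
if `A_x(K, G_t) → L_t(K ∩ M₀)` for all `t`. For every `n` only finitely many `K` of degree at most `n` over `F`
are minimal among the good ones.
(2) If `E / F` is finite and for every finite `N / E` there is a field `K` of degree at most `n` with `K ∩ N = E`
for which `A_x(K)` converges, then `A_x(E)` converges.
(3) If `A_x(E)` converges then for every `ε > 0` there is a finite extension `N` of `E` such that
`(a(K) - a(E))² ≤ ε ([K : F] - [E : F])` for all `K`, of any degree, with `K ∩ N = E` and `A_x(K)` convergent.
(4) The set of all `a(K)`, `[K : F] ≤ n`, is compact; if every neighbourhood of `y` contains `a(K)` for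
infinitely many such `K`, then `y = a(E)` for a field `E` with `2 [E : F] ≤ n`.
(5) Along an ultrafilter all `A_x(K)` converge. -/
theorem result (F : Type) [Field F] [NumberField F] (r : ℕ) (Φ : Set (MvPolynomial (Fin r) (𝓞 F)))
    (S : Set (HeightOneSpectrum (𝓞 F))) (hS : S.Finite)
    (T : Type) (G : T → HeightOneSpectrum (𝓞 F) → ℕ → (ℕ → ℕ) → ℝ) (M : T → ℝ)
    (hG : ∀ t v q N, |G t v q N| ≤ M t) (n : ℕ) :
    (∀ (l : Filter ℝ) [l.NeBot], l ≤ atTop →
      (∀ M₀ : IntermediateField F (AlgebraicClosure F), FiniteDimensional F M₀ →
        ∀ L : T → IntermediateField F (AlgebraicClosure F) → ℝ,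
        {K : IntermediateField F (AlgebraicClosure F) |
          Minimal (fun K : IntermediateField F (AlgebraicClosure F) => FiniteDimensional F K ∧
            finrank F K ≤ n ∧ ∀ t, Tendsto (avg S Φ (G t) K) l (𝓝 (L t (K ⊓ M₀)))) K}.Finite) ∧
      ∀ t,
      (∀ E : IntermediateField F (AlgebraicClosure F), FiniteDimensional F E →
        (∀ N : IntermediateField F (AlgebraicClosure F), FiniteDimensional F N → E ≤ N →
          ∃ K : IntermediateField F (AlgebraicClosure F),
            Converges S Φ (G t) l K ∧ finrank F K ≤ n ∧ K ⊓ N = E) →
        Converges S Φ (G t) l E) ∧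
      (∀ E : IntermediateField F (AlgebraicClosure F), Converges S Φ (G t) l E → ∀ ε : ℝ, 0 < ε →
        ∃ N : IntermediateField F (AlgebraicClosure F), FiniteDimensional F N ∧ E ≤ N ∧
          ∀ K : IntermediateField F (AlgebraicClosure F), Converges S Φ (G t) l K → K ⊓ N = E →
            (limitValue S Φ (G t) l K - limitValue S Φ (G t) l E) ^ 2 ≤
              ε * ((finrank F K : ℝ) - finrank F E)) ∧
      IsCompact (limitValue S Φ (G t) l '' {K | Converges S Φ (G t) l K ∧ finrank F K ≤ n}) ∧
      ∀ y : ℝ, (∀ ε > 0, {K | Converges S Φ (G t) l K ∧ finrank F K ≤ n ∧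
          |limitValue S Φ (G t) l K - y| < ε}.Infinite) →
        ∃ E : IntermediateField F (AlgebraicClosure F),
          Converges S Φ (G t) l E ∧ 2 * finrank F E ≤ n ∧ limitValue S Φ (G t) l E = y) ∧
    ∀ (l : Ultrafilter ℝ) (t : T) (K : IntermediateField F (AlgebraicClosure F)),
      FiniteDimensional F K → Converges S Φ (G t) l K :=
  ⟨fun l _ hl => ⟨fun M₀ hM₀ L => minimal_finite hS n T G M hG M₀ hM₀ L l hl, fun t =>
    ⟨fun E hE h => closedness hS (hG t) hl n E hE h,
      fun E hE ε hε => continuity hS (hG t) hl E hE ε hε,
      compact hS (hG t) hl n,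
      fun y hy => cluster hS (hG t) hl n y hy⟩⟩,
    fun l t K hK => converges_ultra (hG t) l K hK⟩

end Pool.Agent.Results.MP_6dc561_nt.MinimalFields
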