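import Pool.Agent.Work.MP_6dc561_nt.PS.Main

/-!
# The joint law of Frobenius classes and quadratic characters, with power saving

Let `C : y² = f(x)` be a curve of genus two over `ℚ`.  For almost all squarefree integers `d`, the
Frobenius classes of `C` and the Legendre symbols `(d | p)` are asymptotically independent with
power saving, at all `x` from a power of `log D` up to `exp (D^κ)`; this gives the comparison of
`C` with its quadratic twist `d y² = f(x)` and with its base change to `ℚ(√d)`.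

* `aQ f d p`, `bQ f d p`: the coefficients of the Frobenius polynomial
  `T⁴ - a T³ + b T² - p a T + p²` at `p` of `d y² = f(x)`.
* `avgQ f d G x`: the average of `G (a_p/√p) (b_p/p)` over the good primes `p ≤ x` of
  `d y² = f(x)`; `frobAverage` is the same over a number field; `jointAvg f d G x` is the average
  of `G (a_p/√p) (b_p/p) (d | p)` for the curve `y² = f(x)`.
* `LipR R H`: `H` is bounded by one, Lipschitz with constant one and vanishes outside `[-R, R]²`.
* `evenPart G x y = (G x y + G (-x) y) / 2`.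
-/

open NumberField Polynomial Pool.Agent.Work.MP_6dc561_nt Pool.Agent.Work.MP_6dc561_nt.AA
  Pool.Agent.Work.MP_6dc561_nt.PS

namespace Pool.Agent.Results.MP_6dc561_nt.PowerSavingJointLaw

/-- For all squarefree `d` with `|d| ≤ D` outside a set `E` of at most `C D^δ` elements, for all
`x` with `(log D)^(1/κ) ≤ x ≤ exp (D^κ)` and all test functions, the average of
`G (a_p/√p, b_p/p, (d | p))` is that of the mean of `G` over the two signs, up to
`C min(x, D)^(-κ)`, and the same holds for the twist by `d` and for the base change to `ℚ(√d)`.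
Conversely at least `c D^(1-ε)` squarefree `d` with `|d| ≤ D` have arbitrary prescribed symbols at
all odd primes up to `c log D`. -/
theorem result (f : ℤ[X]) (hdeg : f.natDegree = 5 ∨ f.natDegree = 6)
    (hsep : (f.map (Int.castRingHom ℚ)).Separable) (R δ κ ε : ℝ) (hκ0 : 0 < κ)
    (hκδ : 184 * κ ≤ δ) (hκ : 120 * κ ≤ 1) (hε : 0 < ε) :
    (∃ C : ℝ, ∀ D : ℕ, 1 ≤ D → ∃ E : Finset ℤ, (E.card : ℝ) ≤ C * (D : ℝ) ^ δ ∧
      ∀ d : ℤ, |d| ≤ D → Squarefree d → d ∉ E →
      ∀ x : ℕ, (Real.log D) ^ (1 / κ) ≤ x → (x : ℝ) ≤ Real.exp ((D : ℝ) ^ κ) →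
        (∀ G : ℝ → ℝ → ℤ → ℝ, LipR R (fun a b => G a b 1) → LipR R (fun a b => G a b (-1)) →
          |jointAvg f d G x - avgQ f 1 (fun a b => (G a b 1 + G a b (-1)) / 2) x| ≤
            C * (min (x : ℝ) D) ^ (-κ)) ∧
        (∀ G : ℝ → ℝ → ℝ, LipR R G →
          |avgQ f d G x - avgQ f 1 (evenPart G) x| ≤ C * (min (x : ℝ) D) ^ (-κ)) ∧
        (∀ G : ℝ → ℝ → ℝ, LipR R G → ∀ (K : Type) [Field K] [NumberField K],
          Module.finrank ℚ K = 2 → (∃ r : K, r ^ 2 = (d : K)) →
          |frobAverage (f.map (Int.castRingHom (𝓞 K))) 1 G x - avgQ f 1 G x| ≤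
            C * (min (x : ℝ) D) ^ (-κ))) ∧
    (∃ c : ℝ, 0 < c ∧ ∀ D : ℕ, 1 ≤ D → ∀ s : ℕ → ℤ, (∀ p, s p = 1 ∨ s p = -1) →
      c * (D : ℝ) ^ (1 - ε) ≤
        ({d : ℤ | |d| ≤ D ∧ Squarefree d ∧ ∀ p : ℕ, p.Prime → p ≠ 2 →
          (p : ℝ) ≤ c * Real.log D → jacobiSym d p = s p}.ncard : ℝ)) :=
  ⟨main f hdeg hsep R δ κ hκ0 hκδ hκ, sharp hε⟩

end Pool.Agent.Results.MP_6dc561_nt.PowerSavingJointLaw
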