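import Pool.Agent.Work.MP_6dc561_sv.Gram

/-!
# Descent of Sato-Tate averages, for every abelian surface

`F` is a number field, `Φ` is any system of polynomial equations over its ring of integers (for example
homogeneous equations of an abelian surface `A / F` in a projective space). For a prime `w` of a finite
extension `K` of `F`, `N_m(w)` is the number of solutions over the extension of degree `m` of the residue
field (`1 + (q_w^m - 1) #A(F_(q_w^m))` for almost all `w`, in the example; these numbers and `q_w` determine the
characteristic polynomial of Frobenius on `H¹`). `A_x(K)` is the average of a bounded test function `G` of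
`w|F`, `q_w` and `(N_m(w))_m` over the primes `w` of `K` of norm `q_w ≤ x` outside a finite set.
-/

set_option autoImplicit false

open NumberField IsDedekindDomain Filter Topology Pool.SV
open scoped TensorProduct

namespace Pool.Agent.Results.MP_6dc561_nt.SatoTateDescent

/-- Limits are along a filter `l` finer than `x → ∞`; `a(K)` is the limit of `A_x(K)`, and `r(K, K')` is the
number of prime ideals of `K ⊗_F K'`, the scalar product of the permutation characters of `K` and `K'`.
(1) `(Σ c_K a(K))² ≤ M² Σ c_K c_K' r(K, K')` for every finite set of fields `K` with convergent averages and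
all real numbers `c_K`.
(2) If the permutation character of `E` is in the closed span of those of the fields with convergent averages
(for every `ε > 0` there is a finite set `s` of fields which contains `E`, all the others with convergent
averages, and there are real numbers `c_K`, `c_E = 1`, with `Σ c_K c_K' r(K, K') < ε`), then `A_x(E)` converges.
(3) If `E / F` is finite and `A_x(K) → L₁` for all totally imaginary quadratic extensions `K / F`
that do not embed in `E`, then `A_x(F) → L₁`. -/
theorem result (F : Type) [Field F] [NumberField F] (r : ℕ) (Φ : Set (MvPolynomial (Fin r) (𝓞 F)))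
    (S : Set (HeightOneSpectrum (𝓞 F))) (hS : S.Finite)
    (G : HeightOneSpectrum (𝓞 F) → ℕ → (ℕ → ℕ) → ℝ) (M : ℝ) (hG : ∀ v q N, |G v q N| ≤ M)
    (l : Filter ℝ) [l.NeBot] (hl : l ≤ atTop) :
    (∀ (s : Finset (IntermediateField F (AlgebraicClosure F)))
      (c : IntermediateField F (AlgebraicClosure F) → ℝ), (∀ K ∈ s, Converges S Φ G l K) →
      (∑ K ∈ s, c K * limitValue S Φ G l K) ^ 2 ≤
        M ^ 2 * ∑ K ∈ s, ∑ K' ∈ s, c K * c K' * pairing K K') ∧
    (∀ E : IntermediateField F (AlgebraicClosure F), FiniteDimensional F E →
      (∀ ε : ℝ, 0 < ε → ∃ (s : Finset (IntermediateField F (AlgebraicClosure F)))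
        (c : IntermediateField F (AlgebraicClosure F) → ℝ), E ∈ s ∧ c E = 1 ∧
        (∀ K ∈ s, K ≠ E → Converges S Φ G l K) ∧
        ∑ K ∈ s, ∑ K' ∈ s, c K * c K' * pairing K K' < ε) →
      Converges S Φ G l E) ∧
    (∀ (E : Type) [Field E] [NumberField E] [Algebra F E] (L₁ : ℝ),
      (∀ (K : Type) [Field K] [NumberField K] [Algebra F K], Module.finrank F K = 2 →
        IsTotallyComplex K → IsField (K ⊗[F] E) →
        Tendsto (average S Φ G K) l (𝓝 L₁)) →
      Tendsto (average S Φ G F) l (𝓝 L₁)) := by
  refine ⟨fun s c hs => gram hS hG hl s c hs, fun E hE h => closure_converges hS hG hl E hE h,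
    fun E _ _ _ L₁ hE => ?_⟩
  have h := Pool.DS.all F (aux F) (Or.inl aux_deg) aux_sep (fun v _ _ => val Φ G v) M
    (fun v _ _ => hG _ _ _) l hl
  exact (average_iff hS hG hl F L₁).2 (h.2.1 E L₁ fun K _ _ _ h1 h2 h3 =>
    (average_iff hS hG hl K L₁).1 (hE K h1 h2 h3))

end Pool.Agent.Results.MP_6dc561_nt.SatoTateDescent
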